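import Pool.Agent.Lib.MP_601de6_co.Chd

/-!
# MP_601de6_co: the sharp bound when few deletions leave a chordal graph

Let all vertices outside a set `W` of at most `D + 1` vertices have degree at most `D`, and let
`G - W` be chordal (every nonempty induced subgraph has a simplicial vertex). Then the chromatic
polynomial of `G`, expanded at `D`, has nonnegative coefficients, and it is positive at all
real `q > D`.
-/

namespace Pool.Agent.Results.MP_601de6_co.ChordalDeletion

open Pool.Agent.Lib.MP_601de6_co Polynomial

/-- There is a real polynomial `P` whose value at every natural number `n` is the number of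
proper colourings of `G` with `n` colours; all coefficients of `P (X + D)` are nonnegative and
`P` is positive at all real `q > D`. -/
theorem result {V : Type*} [Fintype V] (G : SimpleGraph V) [DecidableRel G.Adj]
    (W : Finset V) (D : ℕ) (hW : W.card ≤ D + 1) (hdeg : ∀ v, v ∉ W → G.degree v ≤ D)
    (hchordal : ∀ U : Finset V, U.Nonempty → (∀ v ∈ U, v ∉ W) →
      ∃ v ∈ U, ∀ u ∈ U, ∀ u' ∈ U, G.Adj v u → G.Adj v u' → u ≠ u' → G.Adj u u') :
    ∃ P : ℝ[X], (∀ n : ℕ, P.eval (n : ℝ) = Nat.card (G.Coloring (Fin n))) ∧
      (∀ i : ℕ, 0 ≤ (P.comp (X + C (D : ℝ))).coeff i) ∧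
      ∀ q : ℝ, (D : ℝ) < q → 0 < P.eval q := by
  classical
  obtain ⟨P, hP⟩ := exists_chromatic (G := G)
  have h : NN (P.comp (X + C (D : ℝ))) := by
    refine chordal_deletion (G := G) (W := W) hW ?_ ?_ P hP
    · intro v hv
      convert hdeg v hv
    · intro U hU hne
      exact hchordal U hne fun v hv => Finset.mem_compl.mp (hU hv)
  refine ⟨P, hP, h.1, fun q hq => ?_⟩
  have h1 := h.eval_pos (x := q - D) (by linarith)
  rw [eval_comp, eval_add, eval_X, eval_C, sub_add_cancel] at h1
  exact h1

end Pool.Agent.Results.MP_601de6_co.ChordalDeletion
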