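import Pool.Agent.Lib.MP_601de6_co.LiftW

/-!
# MP_601de6_co: few vertices of large degree

If all vertices of the finite simple graph `G` outside a set `W` have degree at most `D ≥ 1`,
then the chromatic polynomial of `G` is positive at every real `q` with `q ≥ (1 + e) D` and
`q ≥ |W|`. In particular it is positive at every real `q ≥ Δ` if `Δ ≥ 4` is an integer and at
most `Δ` vertices of `G` have degree greater than `Δ / (1 + e)`.
-/

namespace Pool.Agent.Results.MP_601de6_co.FewLargeDegrees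

open Pool.Agent.Lib.MP_601de6_co Polynomial

/-- There is a real polynomial `P` whose value at every natural number `n` is the number of
proper colourings of `G` with `n` colours. If all vertices outside `W` have degree at most
`D ≥ 1`, then `P` is positive at all real `q ≥ max ((1 + e) D) |W|`. In particular `P` is
positive at all real `q ≥ Δ` if `Δ ≥ 4` is a natural number and at most `Δ` vertices have degree
greater than `Δ / (1 + e)`. -/
theorem result {V : Type*} [Fintype V] (G : SimpleGraph V) [DecidableRel G.Adj] :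
    ∃ P : ℝ[X], (∀ n : ℕ, P.eval (n : ℝ) = Nat.card (G.Coloring (Fin n))) ∧
      (∀ (W : Finset V) (D : ℕ), 1 ≤ D → (∀ v, v ∉ W → G.degree v ≤ D) →
        ∀ q : ℝ, (1 + Real.exp 1) * D ≤ q → (W.card : ℝ) ≤ q → 0 < P.eval q) ∧
      (∀ Δ : ℕ, 4 ≤ Δ → Nat.card {v // (Δ : ℝ) < (1 + Real.exp 1) * G.degree v} ≤ Δ →
        ∀ q : ℝ, (Δ : ℝ) ≤ q → 0 < P.eval q) := by
  classical
  obtain ⟨P, hP⟩ := exists_chromatic (G := G)
  have main : ∀ (W : Finset V) (D : ℕ), 1 ≤ D → (∀ v, v ∉ W → G.degree v ≤ D) →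
        ∀ q : ℝ, (1 + Real.exp 1) * D ≤ q → (W.card : ℝ) ≤ q → 0 < P.eval q := by
    intro W D hD hdeg q hq hW
    obtain ⟨d, rfl⟩ : ∃ d, D = d + 1 := ⟨D - 1, by omega⟩
    push_cast at hq
    refine few_large (G := G) (d := d) (W := W) ?_ P hP hq hW
    intro v hv
    convert hdeg v hv
  refine ⟨P, hP, main, ?_⟩
  intro Δ hΔ hcard q hq
  have he1 := Real.exp_one_gt_d9
  have he2 := Real.exp_one_lt_d9
  have hpos : (0 : ℝ) < 1 + Real.exp 1 := by linarith
  have hΔ' : (4 : ℝ) ≤ Δ := by exact_mod_cast hΔ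
  refine main (Finset.univ.filter fun v => (Δ : ℝ) < (1 + Real.exp 1) * G.degree v)
    ⌊(Δ : ℝ) / (1 + Real.exp 1)⌋₊ ?_ ?_ q ?_ ?_
  · apply Nat.le_floor
    rw [le_div_iff₀ hpos]
    push_cast
    linarith
  · intro v hv
    simp only [Finset.mem_filter, Finset.mem_univ, true_and, not_lt] at hv
    apply Nat.le_floor
    rw [le_div_iff₀ hpos]
    linarith
  · have h1 : (⌊(Δ : ℝ) / (1 + Real.exp 1)⌋₊ : ℝ) ≤ (Δ : ℝ) / (1 + Real.exp 1) :=
      Nat.floor_le (by positivity)
    rw [le_div_iff₀ hpos] at h1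
    linarith
  · rw [Nat.card_eq_fintype_card, Fintype.card_subtype] at hcard
    have h1 : ((Finset.univ.filter fun v => (Δ : ℝ) < (1 + Real.exp 1) * G.degree v).card : ℝ)
        ≤ Δ := by exact_mod_cast hcard
    linarith

end Pool.Agent.Results.MP_601de6_co.FewLargeDegrees
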