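import Pool.Agent.Lib.MP_601de6_co.FewW

/-!
# MP_601de6_co: the sharp bound when few deletions leave small pieces

Let `W` be a set of at most `D + 1` vertices of the finite simple graph `G` such that all
vertices outside `W` have degree at most `D`. Let the vertices outside `W` be divided into
classes with no edges between different classes, such that every class `K` satisfies
`|K| + 3 |N(K) ∩ W| ≤ 3 D + 5`. Then the chromatic polynomial of `G` is positive at all real
`q > D`. In particular this holds if all vertices except one have degree at most `D` and `G` has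
no four pairwise nonadjacent vertices.
-/

namespace Pool.Agent.Results.MP_601de6_co.SmallPieces

open Pool.Agent.Lib.MP_601de6_co Polynomial

/-- There is a real polynomial `P` whose value at every natural number `n` is the number of
proper colourings of `G` with `n` colours, and `P` is positive at all real `q > D` in the
situations described. The function `cp` labels the classes of the vertices outside `W`. -/
theorem result {V : Type*} [Fintype V] (G : SimpleGraph V) [DecidableRel G.Adj] :
    ∃ P : ℝ[X], (∀ n : ℕ, P.eval (n : ℝ) = Nat.card (G.Coloring (Fin n))) ∧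
      (∀ (W : Finset V) (D : ℕ) (cp : V → ℕ), W.card ≤ D + 1 →
        (∀ v, v ∉ W → G.degree v ≤ D) →
        (∀ u v, u ∉ W → v ∉ W → G.Adj u v → cp u = cp v) →
        (∀ i : ℕ, Nat.card {v // v ∉ W ∧ cp v = i}
          + 3 * Nat.card {w // w ∈ W ∧ ∃ v, v ∉ W ∧ cp v = i ∧ G.Adj w v} ≤ 3 * D + 5) →
        ∀ q : ℝ, (D : ℝ) < q → 0 < P.eval q) ∧
      (∀ (x : V) (D : ℕ), (∀ v, v ≠ x → G.degree v ≤ D) → G.indepNum ≤ 3 →
        ∀ q : ℝ, (D : ℝ) < q → 0 < P.eval q) := by
  classical
  obtain ⟨P, hP⟩ := exists_chromatic (G := G)
  have main : ∀ (W : Finset V) (D : ℕ) (cp : V → ℕ), W.card ≤ D + 1 →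
        (∀ v, v ∉ W → G.degree v ≤ D) →
        (∀ u v, u ∉ W → v ∉ W → G.Adj u v → cp u = cp v) →
        (∀ i : ℕ, Nat.card {v // v ∉ W ∧ cp v = i}
          + 3 * Nat.card {w // w ∈ W ∧ ∃ v, v ∉ W ∧ cp v = i ∧ G.Adj w v} ≤ 3 * D + 5) →
        ∀ q : ℝ, (D : ℝ) < q → 0 < P.eval q := by
    intro W D cp hW hdeg hadj hsize q hq
    refine small_pieces (G := G) (W := W) hW (fun v hv => by convert hdeg v hv) cp hadj ?_
      P hP hq
    intro K hK hKc
    rcases K.eq_empty_or_nonempty with rfl | ⟨x, hx⟩
    · have h1 : att G W ∅ = ∅ := by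
        unfold att
        simp
      rw [h1]
      simp
    · refine le_trans ?_ (hsize (cp x))
      have h1 : K.card ≤ Nat.card {v // v ∉ W ∧ cp v = cp x} := by
        rw [Nat.card_eq_fintype_card, Fintype.card_subtype]
        apply Finset.card_le_card
        intro v hv
        simp only [Finset.mem_filter, Finset.mem_univ, true_and]
        exact ⟨hK v hv, hKc v hv x hx⟩
      have h2 : (att G W K).card
          ≤ Nat.card {w // w ∈ W ∧ ∃ v, v ∉ W ∧ cp v = cp x ∧ G.Adj w v} := by
        rw [Nat.card_eq_fintype_card, Fintype.card_subtype]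
        apply Finset.card_le_card
        intro w hw
        unfold att at hw
        rw [Finset.mem_filter] at hw
        obtain ⟨hw1, v, hv, hwv⟩ := hw
        simp only [Finset.mem_filter, Finset.mem_univ, true_and]
        exact ⟨hw1, v, hK v hv, hKc v hv x hx, hwv⟩
      omega
  refine ⟨P, hP, main, ?_⟩
  intro x D hdeg hind q hq
  have hcard := card_le_of_indep (G := G) (x := x) (fun v hv => by convert hdeg v hv) hind
  refine main {x} D (fun _ => 0) (by simp) ?_ (fun _ _ _ _ _ => rfl) ?_ q hq
  · intro v hv
    exact hdeg v (by simpa using hv)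
  · intro i
    have h1 : Nat.card {v : V // v ∉ ({x} : Finset V) ∧ (0 : ℕ) = i} + 1
        ≤ Fintype.card V := by
      rw [Nat.card_eq_fintype_card, Fintype.card_subtype]
      have h3 : (Finset.univ.filter fun v : V => v ∉ ({x} : Finset V) ∧ 0 = i)
          ⊆ Finset.univ.erase x := by
        intro v hv
        simp only [Finset.mem_filter, Finset.mem_univ, true_and, Finset.mem_singleton] at hv
        exact Finset.mem_erase.mpr ⟨hv.1, Finset.mem_univ _⟩
      have h4 := Finset.card_le_card h3
      rw [Finset.card_erase_of_mem (Finset.mem_univ x), Finset.card_univ] at h4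
      have h5 : 0 < Fintype.card V := Fintype.card_pos_iff.mpr ⟨x⟩
      omega
    have h2 : Nat.card {w : V // w ∈ ({x} : Finset V) ∧
        ∃ v, v ∉ ({x} : Finset V) ∧ (0 : ℕ) = i ∧ G.Adj w v} ≤ 1 := by
      rw [Nat.card_eq_fintype_card, Fintype.card_subtype]
      have h3 : (Finset.univ.filter fun w : V => w ∈ ({x} : Finset V) ∧
          ∃ v, v ∉ ({x} : Finset V) ∧ 0 = i ∧ G.Adj w v) ⊆ {x} := by
        intro w hw
        simp only [Finset.mem_filter, Finset.mem_univ, true_and] at hw
        exact hw.1
      have h4 := Finset.card_le_card h3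
      rw [Finset.card_singleton] at h4
      exact h4
    omega

end Pool.Agent.Results.MP_601de6_co.SmallPieces
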